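import Pool.Agent.Helper28.T3E.StF

/-!
# Project T3E, module BASTE: level 9, all twisted values vanish
-/

set_option autoImplicit false

namespace Pool.Agent.Helper74.T3E

open Pool.Agent.Helper28.T3E
open Pool.Agent.Helper14.CV (Homog EqC act Tl)
open Pool.Agent.Helper14.W3 Pool.Agent.Helper78.W3
open Pool.Agent.Helper76.TX (eX Sg)
open Pool.Agent.Helper14.T3

/-- a matrix which fixes a nonzero vector acts without a constant -/
private theorem fixes {G : ℤ → ℤ → ℂ} (hG : Sym3 0 2 G) (a b c d p₀ q₀ : ℤ)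
    (hdet : a * d - 9 * b * c = 1) (h0 : p₀ ≠ 0 ∨ q₀ ≠ 0) (h1 : a * p₀ + 3 * b * q₀ = p₀)
    (h2 : 3 * c * p₀ + d * q₀ = q₀) (p q : ℤ) (hpq : p ≠ 0 ∨ q ≠ 0) :
    G (a * p + 3 * b * q) (3 * (3 * c * p + d * q)) = G p (3 * q) := by
  obtain ⟨k, hk⟩ := hG.2 a b (9 * c) d (by linarith) (by simp) ⟨c, by ring⟩
  have e0 := hk p₀ (3 * q₀) (by omega)
  have e1 := hk p (3 * q) (by omega)
  unfold act at e0 e1
  have r1 : a * p₀ + b * (3 * q₀) = p₀ := by linarith
  have r2 : 9 * c * p₀ + d * (3 * q₀) = 3 * q₀ := by linarith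
  rw [r1, r2] at e0
  have hk0 : k = 0 := by
    have := e0.symm
    simpa using this
  rw [hk0, add_zero] at e1
  rw [← e1]
  congr 1 <;> ring

/-- all matrices act without a constant -/
private theorem inv9 (hI : StIND) {G : ℤ → ℤ → ℂ} (hG : Sym3 0 2 G) (a b c d : ℤ)
    (hdet : a * d - 9 * b * c = 1) (p q : ℤ) (hpq : p ≠ 0 ∨ q ≠ 0) :
    G (a * p + 3 * b * q) (3 * (3 * c * p + d * q)) = G p (3 * q) := by
  have main := (hI (fun a b c d => ∀ p q : ℤ, (p ≠ 0 ∨ q ≠ 0) →
    G (a * p + 3 * b * q) (3 * (3 * c * p + d * q)) = G p (3 * q)) (by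
      intro p q _
      congr 1 <;> ring)).1 ?_ a b c d hdet
  · exact main p q hpq
  · intro a b c d hd hP
    have nz : ∀ p q : ℤ, (p ≠ 0 ∨ q ≠ 0) →
        (a * p + 3 * b * q ≠ 0 ∨ 3 * c * p + d * q ≠ 0) := by
      intro p q h
      by_contra hcon
      push Not at hcon
      obtain ⟨u1, u2⟩ := hcon
      have hp : p = 0 := by
        have : p = d * (a * p + 3 * b * q) - 3 * b * (3 * c * p + d * q) := by
          linear_combination -p * hd
        rw [this, u1, u2]; ring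
      have hq : q = 0 := by
        have : q = a * (3 * c * p + d * q) - 3 * c * (a * p + 3 * b * q) := by
          linear_combination -q * hd
        rw [this, u1, u2]; ring
      rcases h with h | h
      · exact h hp
      · exact h hq
    have step : ∀ a₀ b₀ c₀ d₀ p₀ q₀ : ℤ, a₀ * d₀ - 9 * b₀ * c₀ = 1 → (p₀ ≠ 0 ∨ q₀ ≠ 0) →
        a₀ * p₀ + 3 * b₀ * q₀ = p₀ → 3 * c₀ * p₀ + d₀ * q₀ = q₀ → ∀ p q : ℤ, (p ≠ 0 ∨ q ≠ 0) →
        G ((a₀ * a + 9 * b₀ * c) * p + 3 * (a₀ * b + b₀ * d) * q)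
          (3 * (3 * (c₀ * a + d₀ * c) * p + (d₀ * d + 9 * c₀ * b) * q)) = G p (3 * q) := by
      intro a₀ b₀ c₀ d₀ p₀ q₀ hd0 h0 h1 h2 p q hpq
      have e := fixes hG a₀ b₀ c₀ d₀ p₀ q₀ hd0 h0 h1 h2 (a * p + 3 * b * q) (3 * c * p + d * q)
        (nz p q hpq)
      rw [hP p q hpq] at e
      rw [← e]
      congr 1 <;> ring
    refine ⟨?_, ?_, ?_, ?_, ?_, ?_, ?_, ?_, ?_⟩
    · intro p q hpq
      have e := hG.1 (-1) (a * p + 3 * b * q) (3 * (3 * c * p + d * q)) (by norm_num) (by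
        rcases nz p q hpq with h | h
        · exact Or.inl h
        · right; omega)
      rw [hP p q hpq] at e
      rw [← e]
      congr 1 <;> ring
    · intro p q hpq
      have e := step 1 1 0 1 1 0 (by norm_num) (by norm_num) (by norm_num) (by norm_num) p q hpq
      rw [← e]; congr 1 <;> ring
    · intro p q hpq
      have e := step 1 (-1) 0 1 1 0 (by norm_num) (by norm_num) (by norm_num) (by norm_num) p q hpq
      rw [← e]; congr 1 <;> ring
    · intro p q hpq
      have e := step 1 0 1 1 0 1 (by norm_num) (by norm_num) (by norm_num) (by norm_num) p q hpq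
      rw [← e]; congr 1 <;> ring
    · intro p q hpq
      have e := step 1 0 (-1) 1 0 1 (by norm_num) (by norm_num) (by norm_num) (by norm_num) p q hpq
      rw [← e]; congr 1 <;> ring
    · intro p q hpq
      have e := step (-2) 1 (-1) 4 1 1 (by norm_num) (by norm_num) (by norm_num) (by norm_num) p q hpq
      rw [← e]; congr 1 <;> ring
    · intro p q hpq
      have e := step 4 (-1) 1 (-2) 1 1 (by norm_num) (by norm_num) (by norm_num) (by norm_num) p q hpq
      rw [← e]; congr 1 <;> ring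
    · intro p q hpq
      have e := step 4 1 (-1) (-2) (-1) 1 (by norm_num) (by norm_num) (by norm_num) (by norm_num)
        p q hpq
      rw [← e]; congr 1 <;> ring
    · intro p q hpq
      have e := step (-2) (-1) 1 4 (-1) 1 (by norm_num) (by norm_num) (by norm_num) (by norm_num)
        p q hpq
      rw [← e]; congr 1 <;> ring

private theorem val9 (hI : StIND) {G : ℤ → ℤ → ℂ} (hG : Sym3 0 2 G) (D : ℕ) (h3 : ¬ 3 ∣ D)
    (hD : 1 < D) (a : ℕ) (ha : Nat.Coprime a D) : G a D = G 0 3 := by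
  have hco : IsCoprime ((9 * a : ℕ) : ℤ) (D : ℤ) := by
    rw [Nat.isCoprime_iff_coprime]
    refine Nat.Coprime.mul_left ?_ ha
    have : Nat.Coprime 3 D := (Nat.Prime.coprime_iff_not_dvd Nat.prime_three).2 h3
    have h9 := Nat.Coprime.pow_left 2 this
    simpa using h9
  obtain ⟨u, v, huv⟩ := hco
  push_cast at huv
  have e := inv9 hI hG v a (-u) D (by linarith) 0 1 (by norm_num)
  have e2 := hG.1 3 (a : ℤ) (D : ℤ) (by norm_num) (by right; omega)
  rw [← e2]
  have e3 : G (v * 0 + 3 * (a : ℤ) * 1) (3 * (3 * (-u) * 0 + (D : ℤ) * 1)) =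
      G (3 * (a : ℤ)) (3 * (D : ℤ)) := by
    congr 1 <;> ring
  rw [← e3, e]
  norm_num

private theorem eX9 (hI : StIND) (hC : StCHS) {G : ℤ → ℤ → ℂ} (hG : Sym3 0 2 G) (D : ℕ)
    (hD : OkE D) : eX D G = 0 := by
  obtain ⟨h1, hsq, h12, _⟩ := hD
  have h3 : ¬ 3 ∣ D := by omega
  unfold eX
  have : ∀ a ∈ Finset.range D, jacobiSym ((a : ℕ) : ℤ) D • (G ((a : ℕ) : ℤ) D - G 1 0) =
      jacobiSym ((a : ℕ) : ℤ) D • (G 0 3 - G 1 0) := by
    intro a _
    by_cases hc : Nat.Coprime a D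
    · rw [val9 hI hG D h3 h1 a hc]
    · have : jacobiSym ((a : ℕ) : ℤ) D = 0 := by
        have : NeZero D := ⟨by omega⟩
        rw [jacobiSym.eq_zero_iff_not_coprime]
        rwa [Int.gcd_natCast_natCast]
      rw [this, zero_smul, zero_smul]
  rw [Finset.sum_congr rfl this, ← Finset.sum_smul, (hC D h1 hsq h12).2.1, zero_smul]

theorem hBASTE : StBASTE := by
  intro hI hS hC D G hD hG
  have h2 : ∀ i : ℕ, Sym3 0 2 ((Tl 2 1)^[i] G) := by
    intro i
    induction i with
    | zero => exact hG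
    | succ i ih =>
      rw [Function.iterate_succ_apply']
      exact (hS ℂ _ 2 _ ih).1 2 Nat.prime_two (by norm_num)
  have h7 : ∀ i j : ℕ, Sym3 0 2 ((Bo 1)^[j] ((Tl 2 1)^[i] G)) := by
    intro i j
    induction j with
    | zero => exact h2 i
    | succ j ih =>
      rw [Function.iterate_succ_apply']
      exact (hS ℂ _ 2 _ ih).2
  funext i j
  rw [evT_apply]
  exact eX9 hI hC (h7 i j) D hD

end Pool.Agent.Helper74.T3E
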